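import Pool.Agent.Y166.DP.Stm
import Pool.Agent.W602.GT.Der

/-!
# Project DP: dual derivations (C2) and elements killed by derivations (C3)
-/

set_option autoImplicit false

namespace Pool.Agent.Y179.DP

open Pool.Agent.W602.GT Pool.Agent.Y166.DP

theorem dual_aux (k₀ k : Type) [Field k₀] [Field k] [CharZero k₀] [Algebra k₀ k] (ι : Type)
    [DecidableEq ι] (z : ι → k) (hz : AlgebraicIndependent k₀ z) :
    ∃ D : ι → Derivation k₀ k k, ∀ i j, D i (z j) = if i = j then 1 else 0 := by
  classical
  obtain ⟨t, ht, hb⟩ := exists_isTranscendenceBasis_superset (R := k₀) (A := k) (s := Set.range z)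
    ((algebraicIndependent_subtype_range hz.injective).2 hz)
  have h : ∀ i, ∃ D : Derivation k₀ k k, ∀ j, D (z j) = if i = j then 1 else 0 := by
    intro i
    obtain ⟨D, hD⟩ := exists_der (fun a : t => (a : k)) hb (fun a => if z i = a then 1 else 0)
    refine ⟨D, fun j => ?_⟩
    rw [hD ⟨z j, ht ⟨j, rfl⟩⟩]
    by_cases hij : i = j
    · rw [if_pos hij, if_pos (by rw [hij])]
    · rw [if_neg hij, if_neg (fun h => hij (hz.injective h))]
  choose D hD using h
  exact ⟨D, hD⟩

theorem alg_aux (k₀ k : Type) [Field k₀] [Field k] [CharZero k₀] [Algebra k₀ k] (S : Set k) (z : k)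
    (h : ∀ D : Derivation k₀ k k, (∀ s ∈ S, D s = 0) → D z = 0) :
    IsAlgebraic (IntermediateField.adjoin k₀ S) z := by
  by_contra hz
  have hz' : Transcendental (IntermediateField.adjoin k₀ S) z := hz
  have hz'' : AlgebraicIndependent (IntermediateField.adjoin k₀ S) (fun _ : Unit => z) := by
    rw [algebraicIndependent_unique_type_iff]
    exact hz'
  have hc : CharZero (IntermediateField.adjoin k₀ S) :=
    charZero_of_injective_algebraMap (algebraMap k₀ (IntermediateField.adjoin k₀ S)).injective
  obtain ⟨D, hD⟩ := dual_aux (IntermediateField.adjoin k₀ S) k Unit (fun _ => z) hz''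
  have h1 := h ((D ()).restrictScalars k₀) (by
    intro s hs
    have h2 : s = algebraMap (IntermediateField.adjoin k₀ S) k
      ⟨s, IntermediateField.subset_adjoin _ _ hs⟩ := rfl
    rw [Derivation.restrictScalars_apply, h2, Derivation.map_algebraMap])
  rw [Derivation.restrictScalars_apply, hD () (), if_pos rfl] at h1
  exact one_ne_zero h1

theorem stmDual : StmDual := by
  intro k₀ k _ _ _ _ ι _ _ z hz
  exact dual_aux k₀ k ι z hz

theorem stmAlg : StmAlg := by
  intro k₀ k _ _ _ _ S z h
  exact alg_aux k₀ k S z h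

end Pool.Agent.Y179.DP
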