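import Pool.Agent.Y179.DP.Pres

/-!
# Project DP: regular lifts of derivations (B4)
-/

set_option autoImplicit false

namespace Pool.Agent.Y179.DP

open FF Pool.Agent.W603.LV Pool.Agent.TH145.GH Pool.Agent.Y166.DP

section

variable {k K : Type} [Field k] [Field K] [Algebra k K]

/-- regular derivations lower the order by at most one -/
theorem ge_der_sub {P : Place k K} {D : Derivation ℤ K K} (hD : ∀ f, Ge P 0 f → Ge P 0 (D f))
    {n : ℤ} {f : K} (hf : Ge P n f) : Ge P (n - 1) (D f) := by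
  obtain ⟨π, hπ0, hπ⟩ := P.surj
  have hu := ge_unit hπ hf
  have hDπ : Ge P 0 (D π) := hD π (Or.inr (by omega))
  rw [eq_zpow_mul hπ n f, D.leibniz, Derivation.leibniz_zpow]
  simp only [smul_eq_mul, zsmul_eq_mul]
  refine Ge.add ?_ ?_
  · have := (ge_zpow hπ n).mul (hD _ hu)
    exact this.mono (by omega)
  · have h1 := ((Ge.intCast (P := P) n).mul ((ge_zpow hπ (n - 1)).mul hDπ))
    have h2 := hu.mul h1
    refine Ge.mono ?_ h2
    omega

theorem fsum3 (x y : K) (c : Fin 3 → k) : fsum x y c = algebraMap k K (c 0) +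
    algebraMap k K (c 1) * x + algebraMap k K (c 2) * y := by
  unfold fsum
  simp only [Fin.sum_univ_succ, Fin.sum_univ_zero, fn]
  norm_num
  ring

theorem fn_succ_val (x y : K) (j : ℕ) : fn x y j =
    if j = 0 then 1 else if j % 2 = 1 then x ^ ((j + 1) / 2) else x ^ ((j - 2) / 2) * y := rfl

theorem fsum4 (x y : K) (c : Fin 4 → k) : fsum x y c = algebraMap k K (c 0) +
    algebraMap k K (c 1) * x + algebraMap k K (c 2) * y + algebraMap k K (c 3) * x ^ 2 := by
  unfold fsum
  rw [Fin.sum_univ_four]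
  have h0 : fn x y ((0 : Fin 4) : ℕ) = 1 := by rw [fn_succ_val]; norm_num
  have h1 : fn x y ((1 : Fin 4) : ℕ) = x := by rw [fn_succ_val]; norm_num
  have h2 : fn x y ((2 : Fin 4) : ℕ) = y := by
    rw [show ((2 : Fin 4) : ℕ) = 2 from rfl, fn_succ_val]; norm_num
  have h3 : fn x y ((3 : Fin 4) : ℕ) = x ^ 2 := by
    rw [show ((3 : Fin 4) : ℕ) = 3 from rfl, fn_succ_val]; norm_num
  rw [h0, h1, h2, h3]
  ring

theorem fsum7 (x y : K) (c : Fin 7 → k) : fsum x y c = algebraMap k K (c 0) +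
    algebraMap k K (c 1) * x + algebraMap k K (c 2) * y + algebraMap k K (c 3) * x ^ 2 +
    algebraMap k K (c 4) * (x * y) + algebraMap k K (c 5) * x ^ 3 +
    algebraMap k K (c 6) * (x ^ 2 * y) := by
  unfold fsum
  rw [Fin.sum_univ_seven]
  have h0 : fn x y ((0 : Fin 7) : ℕ) = 1 := by rw [fn_succ_val]; norm_num
  have h1 : fn x y ((1 : Fin 7) : ℕ) = x := by rw [fn_succ_val]; norm_num
  have h2 : fn x y ((2 : Fin 7) : ℕ) = y := by
    rw [show ((2 : Fin 7) : ℕ) = 2 from rfl, fn_succ_val]; norm_num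
  have h3 : fn x y ((3 : Fin 7) : ℕ) = x ^ 2 := by
    rw [show ((3 : Fin 7) : ℕ) = 3 from rfl, fn_succ_val]; norm_num
  have h4 : fn x y ((4 : Fin 7) : ℕ) = x * y := by
    rw [show ((4 : Fin 7) : ℕ) = 4 from rfl, fn_succ_val]; norm_num
  have h5 : fn x y ((5 : Fin 7) : ℕ) = x ^ 3 := by
    rw [show ((5 : Fin 7) : ℕ) = 5 from rfl, fn_succ_val]; norm_num
  have h6 : fn x y ((6 : Fin 7) : ℕ) = x ^ 2 * y := by
    rw [show ((6 : Fin 7) : ℕ) = 6 from rfl, fn_succ_val]; norm_num
  rw [h0, h1, h2, h3, h4, h5, h6]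
  ring

end

theorem stmKS : StmInf → StmBasis → StmKS := by
  intro hInf hBasis k K _ _ _ _ _ _ lam x y hE D D' hL hreg
  obtain ⟨o, hox, hoy, hP⟩ := hInf k K lam x y hE
  obtain ⟨-, hind, hsp⟩ := hBasis k K lam x y hE o (by omega)
  have hDx : (∀ P, P ≠ o → Ge P 0 (D' x)) ∧ Ge o (-((3 : ℕ) : ℤ)) (D' x) := by
    refine ⟨fun P hPo => hreg P x (hP P hPo).1, ?_⟩
    have h1 : Ge o (-2) x := Or.inr (by omega)
    have := ge_der_sub (hreg o) h1
    exact this.mono (by omega)
  have hDy : (∀ P, P ≠ o → Ge P 0 (D' y)) ∧ Ge o (-((4 : ℕ) : ℤ)) (D' y) := by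
    refine ⟨fun P hPo => hreg P y (hP P hPo).2, ?_⟩
    have h1 : Ge o (-3) y := Or.inr (by omega)
    have := ge_der_sub (hreg o) h1
    exact this.mono (by omega)
  obtain ⟨a, ha⟩ := (hsp 3 (by norm_num) (D' x)).1 hDx
  obtain ⟨b, hb⟩ := (hsp 4 (by norm_num) (D' y)).1 hDy
  rw [fsum3] at ha
  rw [fsum4] at hb
  have hlam : D' (algebraMap k K lam) = algebraMap k K (D lam) := hL lam
  have heq := hE.eqn
  have hder : 2 * y * D' y = cub' lam x * D' x - x * (x - 1) * algebraMap k K (D lam) := by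
    have h1 := congrArg D' heq
    rw [D'.leibniz_pow, D'.leibniz, D'.leibniz, map_sub, map_sub, hlam, D'.map_one_eq_zero] at h1
    simp only [smul_eq_mul, nsmul_eq_mul] at h1
    unfold cub'
    push_cast at h1
    linear_combination h1
  -- comparison of the coefficients
  have h7 := hind 7 ![-(lam * a 0), 2 * b 2 * lam - (lam * a 1 - 2 * (1 + lam) * a 0) - D lam,
    2 * b 0 - a 2 * lam, -(2 * b 2 * (1 + lam)) - (3 * a 0 - 2 * (1 + lam) * a 1) + D lam,
    2 * b 1 + 2 * (1 + lam) * a 2, 2 * b 2 - 3 * a 1, 2 * b 3 - 3 * a 2] (by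
      rw [fsum7]
      simp only [Matrix.cons_val_zero, Matrix.cons_val_one, Matrix.cons_val]
      simp only [map_neg, map_sub, map_add, map_mul, map_one, map_ofNat]
      rw [ha, hb] at hder
      unfold cub' at hder
      linear_combination hder - 2 * algebraMap k K (b 2) * heq)
  have e0 := congrFun h7 0
  have e1 := congrFun h7 1
  have e2 := congrFun h7 2
  have e3 := congrFun h7 3
  have e4 := congrFun h7 4
  have e5 := congrFun h7 5
  have e6 := congrFun h7 6
  simp only [Matrix.cons_val_zero, Matrix.cons_val_one, Matrix.cons_val, Pi.zero_apply] at e0 e1 e2 e3 e4 e5 e6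
  have ha0 : a 0 = 0 := by
    have : lam * a 0 = 0 := by linear_combination -e0
    exact (mul_eq_zero.1 this).resolve_left hE.lam0
  rw [ha0] at e1 e3
  have hDl : D lam = 2 * lam * a 1 := by linear_combination lam * e5 - e1
  have ha1 : a 1 = 0 := by
    have h1 : a 1 * (lam - 1) = 0 := by
      rw [hDl] at e3
      linear_combination e3 + (1 + lam) * e5
    rcases mul_eq_zero.1 h1 with h2 | h2
    · exact h2
    · exact absurd (sub_eq_zero.1 h2) hE.lam1
  have hDl0 : D lam = 0 := by rw [hDl, ha1, mul_zero]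
  have hb2 : b 2 = 0 := by
    rw [ha1] at e5
    have : 2 * b 2 = 0 := by linear_combination e5
    exact (mul_eq_zero.1 this).resolve_left two_ne_zero
  have h2k : (2 : k) ≠ 0 := two_ne_zero
  have h2K : (2 : K) ≠ 0 := by
    have hc : CharZero K := charZero_of_injective_algebraMap (algebraMap k K).injective
    exact two_ne_zero
  refine ⟨hDl0, a 2 / 2, ?_, ?_⟩
  · rw [ha, ha0, ha1, map_zero, map_div₀, map_ofNat]
    field_simp
    ring
  · have hb0' : b 0 = a 2 * lam / 2 := by field_simp; linear_combination e2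
    have hb1' : b 1 = -(1 + lam) * a 2 := by
      have : 2 * (b 1 - -(1 + lam) * a 2) = 0 := by linear_combination e4
      exact sub_eq_zero.1 ((mul_eq_zero.1 this).resolve_left h2k)
    have hb3' : b 3 = 3 * a 2 / 2 := by field_simp; linear_combination e6
    rw [hb, hb0', hb1', hb2, hb3']
    simp only [map_neg, map_add, map_mul, map_one, map_zero, map_div₀, map_ofNat]
    unfold cub'
    field_simp
    ring

end Pool.Agent.Y179.DP
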