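import Pool.Agent.Y179.DP.Loc

/-!
# Project DP: derivations of points on a moving tangent line (E6)
-/

set_option autoImplicit false

namespace Pool.Agent.Y179.DP

open FF Pool.Agent.W603.LV Pool.Agent.TH145.GH Pool.Agent.Y166.DP

section

variable {k K : Type} [Field k] [Field K] [Algebra k K]

theorem mo_const (P : Place k K) (c : Fin 3 → k) : mo P (fun i => algebraMap k K (c i)) = 0 := by
  by_cases hc : c = 0
  · have h : (fun i => algebraMap k K (c i)) = (0 : Fin 3 → K) := by
      funext i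
      rw [hc]
      exact map_zero _
    rw [h]
    exact mo_zero P
  · obtain ⟨i, hi⟩ := Function.ne_iff.1 hc
    have hi' : algebraMap k K (c i) ≠ 0 := (map_ne_zero _).2 hi
    rw [mo_eq P (i := i) hi', P.ord_const hi]
    intro j
    rw [P.ord_const hi]
    exact Ge.const (c j)

theorem ht_const (c : Fin 3 → k) : ht k (fun i => algebraMap k K (c i)) = 0 := by
  unfold ht
  have h : (fun P : Place k K => mo P (fun i => algebraMap k K (c i))) = fun _ => 0 := by
    funext P
    exact mo_const P c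
  rw [h, finsum_zero, neg_zero]

variable [CharZero k] [IsAlgClosed k] [IsFF k K]

theorem ht_mul_const (f : K) (c : Fin 3 → k) : ht k (fun i => f * algebraMap k K (c i)) = 0 := by
  by_cases hf : f = 0
  · have h := ht_const (K := K) (0 : Fin 3 → k)
    simp only [hf, zero_mul]
    simpa using h
  by_cases hc : (fun i => algebraMap k K (c i)) = (0 : Fin 3 → K)
  · have h1 : (fun i => f * algebraMap k K (c i)) = fun i => algebraMap k K (c i) := by
      rw [hc]
      funext i
      have := congrFun hc i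
      simp only [Pi.zero_apply] at this
      rw [this]
      simp
    rw [h1, ht_const]
  · rw [ht_smul hc hf, ht_const]

end

theorem stmMov : StmTan → StmMov := by
  intro hTan k K _ _ _ _ _ _ τ a ω ha hω hτ0 hω0 ha0 u hu
  obtain ⟨-, hht⟩ := hTan k K τ a ω ha hω hτ0 hω0 ha0 u
  rw [← hht] at hu
  set g := gg τ a ω u with hg
  set t : K := (u 1 - u 0) * algebraMap k K (3 * τ / ω) with ht
  set ρ : K := algebraMap k K ((-2 * (τ ^ 4 - 1) + ω) / (6 * τ)) with hρ
  set s : K := u 0 + ρ * t with hs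
  have hg0 : g 0 = s + algebraMap k K (τ ^ 3) * t := rfl
  have hg1 : g 1 = algebraMap k K τ * s - t := rfl
  have hg2 : g 2 = algebraMap k K a * s := rfl
  have haK : algebraMap k K a ≠ 0 := (map_ne_zero _).2 ha0
  have hτK : algebraMap k K τ ≠ 0 := (map_ne_zero _).2 hτ0
  have hωK : algebraMap k K ω ≠ 0 := (map_ne_zero _).2 hω0
  have hck : CharZero K := charZero_of_injective_algebraMap (algebraMap k K).injective
  have haK4 : algebraMap k K a ^ 4 = -(1 + algebraMap k K τ ^ 4) := by
    rw [← map_pow, ha, map_neg, map_add, map_one, map_pow]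
  have hline : g 0 + algebraMap k K τ ^ 3 * g 1 + algebraMap k K a ^ 3 * g 2 = 0 := by
    rw [hg0, hg1, hg2, map_pow]
    linear_combination s * haK4
  -- independence
  have hind : ∀ c1 c2 : k, algebraMap k K c1 * g 1 + algebraMap k K c2 * g 2 = 0 →
      c1 = 0 ∧ c2 = 0 := by
    intro c1 c2 h
    by_contra hcon
    have hz : ∃ (f : K) (c : Fin 3 → k), g = fun i => f * algebraMap k K (c i) := by
      by_cases h1 : c1 = 0
      · have h2 : c2 ≠ 0 := fun h2 => hcon ⟨h1, h2⟩
        rw [h1, map_zero, zero_mul, zero_add] at h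
        have h3 : g 2 = 0 := (mul_eq_zero.1 h).resolve_left ((map_ne_zero _).2 h2)
        refine ⟨g 1, ![-τ ^ 3, 1, 0], ?_⟩
        funext i
        fin_cases i
        · simp only [Fin.zero_eta, Matrix.cons_val_zero, map_neg, map_pow]
          rw [h3] at hline
          linear_combination hline
        · simp
        · simp [h3]
      · have h2 : g 1 = -(algebraMap k K (c2 / c1)) * g 2 := by
          have h3 : algebraMap k K c1 ≠ 0 := (map_ne_zero _).2 h1
          rw [map_div₀]
          field_simp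
          linear_combination h
        refine ⟨g 2, ![τ ^ 3 * (c2 / c1) - a ^ 3, -(c2 / c1), 1], ?_⟩
        funext i
        fin_cases i
        · simp only [Fin.zero_eta, Matrix.cons_val_zero, map_sub, map_mul, map_pow]
          rw [h2] at hline
          linear_combination hline
        · simp only [Fin.mk_one, Matrix.cons_val_one, Matrix.cons_val_zero, map_neg]
          rw [h2]
          ring
        · simp
    obtain ⟨f, c, hfc⟩ := hz
    have h0 : Pool.Agent.Y166.DP.ht k g = 0 := by
      rw [hfc]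
      exact ht_mul_const f c
    rw [h0] at hu
    exact lt_irrefl _ hu
  have h3τ : (3 : k) * τ ^ 2 ≠ 0 := mul_ne_zero three_ne_zero (pow_ne_zero _ hτ0)
  have h3a : (3 : k) * a ^ 2 ≠ 0 := mul_ne_zero three_ne_zero (pow_ne_zero _ ha0)
  have hDa : ∀ D : Derivation ℤ k k, D τ = 0 → D a = 0 := by
    intro D hD
    have h1 := congrArg D ha
    rw [D.leibniz_pow, map_neg, map_add, D.map_one_eq_zero, D.leibniz_pow, hD] at h1
    simp only [smul_eq_mul, nsmul_eq_mul, mul_zero, add_zero, neg_zero] at h1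
    rcases mul_eq_zero.1 h1 with h2 | h2
    · exact absurd h2 (by norm_num)
    · exact (mul_eq_zero.1 h2).resolve_left (pow_ne_zero _ ha0)
  have hDω : ∀ D : Derivation ℤ k k, D τ = 0 → D ω = 0 := by
    intro D hD
    have h1 := congrArg D hω
    have h2 : D (-2 * (τ ^ 8 + τ ^ 4 + 1)) = 0 := by
      rw [D.leibniz, map_add, map_add, D.leibniz_pow, D.leibniz_pow, D.map_one_eq_zero, hD,
        map_neg, show (2 : k) = ((2 : ℕ) : k) by norm_num, D.map_natCast]
      simp
    rw [D.leibniz_pow, h2] at h1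
    simp only [smul_eq_mul, nsmul_eq_mul] at h1
    rcases mul_eq_zero.1 h1 with h3 | h3
    · exact absurd h3 (by norm_num)
    · exact (mul_eq_zero.1 h3).resolve_left (pow_ne_zero _ hω0)
  have hLline : ∀ (D : Derivation ℤ k k) (D' : Derivation ℤ K K), Lifts D D' →
      D' (g 0) + algebraMap k K τ ^ 3 * D' (g 1) + algebraMap k K a ^ 3 * D' (g 2) +
        (algebraMap k K (3 * τ ^ 2 * D τ) * g 1 + algebraMap k K (3 * a ^ 2 * D a) * g 2) = 0 := by
    intro D D' hL
    have h1 := congrArg D' hline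
    rw [map_add, map_add, D'.leibniz, D'.leibniz, D'.leibniz_pow, D'.leibniz_pow, hL, hL,
      map_zero] at h1
    simp only [smul_eq_mul, nsmul_eq_mul] at h1
    simp only [map_mul, map_pow, map_ofNat]
    push_cast at h1
    linear_combination h1
  refine ⟨?_, ?_⟩
  · intro D D' hL h0
    have h1 := hLline D D' hL
    rw [h0 0, h0 1, h0 2, mul_zero, mul_zero, add_zero, add_zero, zero_add] at h1
    obtain ⟨h2, -⟩ := hind _ _ h1
    have hDτ : D τ = 0 := (mul_eq_zero.1 h2).resolve_left h3τ
    have hDa0 := hDa D hDτ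
    have hDω0 := hDω D hDτ
    have hc : ∀ c : k, D c = 0 → D' (algebraMap k K c) = 0 := by
      intro c hc
      rw [hL, hc, map_zero]
    have hs0 : D' s = 0 := by
      have h4 := h0 2
      rw [hg2, D'.leibniz, hc a hDa0] at h4
      simp only [smul_eq_mul, mul_zero, add_zero] at h4
      exact (mul_eq_zero.1 h4).resolve_left haK
    have ht0 : D' t = 0 := by
      have h4 := h0 1
      rw [hg1, map_sub, D'.leibniz, hc τ hDτ, hs0] at h4
      simp only [smul_eq_mul, mul_zero, add_zero, zero_sub, neg_eq_zero] at h4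
      exact h4
    have hDρ : D ((-2 * (τ ^ 4 - 1) + ω) / (6 * τ)) = 0 := by
      have h5 : D (-2 * (τ ^ 4 - 1) + ω) = 0 := by
        rw [map_add, D.leibniz, map_sub, D.leibniz_pow, D.map_one_eq_zero, hDτ, hDω0,
          map_neg, show (2 : k) = ((2 : ℕ) : k) by norm_num, D.map_natCast]
        simp
      have h6 : D (6 * τ) = 0 := by
        rw [D.leibniz, hDτ, show (6 : k) = ((6 : ℕ) : k) by norm_num, D.map_natCast]
        simp
      rw [Derivation.leibniz_div, h5, h6]
      simp
    have hD3 : D (3 * τ / ω) = 0 := by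
      have h6 : D (3 * τ) = 0 := by
        rw [D.leibniz, hDτ, show (3 : k) = ((3 : ℕ) : k) by norm_num, D.map_natCast]
        simp
      rw [Derivation.leibniz_div, h6, hDω0]
      simp
    have hu0 : D' (u 0) = 0 := by
      have h5 : u 0 = s - ρ * t := by rw [hs]; ring
      rw [h5, map_sub, D'.leibniz, hs0, ht0, hρ, hc _ hDρ]
      simp
    have hu1 : D' (u 1) = 0 := by
      have h5 : D' t = 0 := ht0
      rw [ht, D'.leibniz, hc _ hD3, map_sub, hu0] at h5
      simp only [smul_eq_mul, mul_zero, zero_add, sub_zero] at h5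
      refine (mul_eq_zero.1 h5).resolve_left ((map_ne_zero _).2 ?_)
      exact div_ne_zero (mul_ne_zero three_ne_zero hτ0) hω0
    refine ⟨hDτ, fun i => ?_⟩
    fin_cases i
    · exact hu0
    · exact hu1
  · intro D₁ D₂ D₁' D₂' hL1 hL2 h1τ h2τ h2u0 h2u1 hu1
    have h2a := hDa D₂ h2τ
    have h2ω := hDω D₂ h2τ
    have hc : ∀ c : k, D₂ c = 0 → D₂' (algebraMap k K c) = 0 := by
      intro c hc
      rw [hL2, hc, map_zero]
    have hline1 := hLline D₁ D₁' hL1
    have hline2 := hLline D₂ D₂' hL2
    rw [h2τ, h2a, mul_zero, mul_zero, map_zero, zero_mul, zero_mul, add_zero, add_zero] at hline2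
    have hLV : D₁' (g 0) + algebraMap k K τ ^ 3 * D₁' (g 1) + algebraMap k K a ^ 3 * D₁' (g 2) ≠ 0 := by
      intro h0
      rw [h0, zero_add] at hline1
      obtain ⟨h2, -⟩ := hind _ _ hline1
      exact h1τ ((mul_eq_zero.1 h2).resolve_left h3τ)
    have hDρ : D₂ ((-2 * (τ ^ 4 - 1) + ω) / (6 * τ)) = 0 := by
      have h5 : D₂ (-2 * (τ ^ 4 - 1) + ω) = 0 := by
        rw [map_add, D₂.leibniz, map_sub, D₂.leibniz_pow, D₂.map_one_eq_zero, h2τ, h2ω,
          map_neg, show (2 : k) = ((2 : ℕ) : k) by norm_num, D₂.map_natCast]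
        simp
      have h6 : D₂ (6 * τ) = 0 := by
        rw [D₂.leibniz, h2τ, show (6 : k) = ((6 : ℕ) : k) by norm_num, D₂.map_natCast]
        simp
      rw [Derivation.leibniz_div, h5, h6]
      simp
    have hD3 : D₂ (3 * τ / ω) = 0 := by
      have h6 : D₂ (3 * τ) = 0 := by
        rw [D₂.leibniz, h2τ, show (3 : k) = ((3 : ℕ) : k) by norm_num, D₂.map_natCast]
        simp
      rw [Derivation.leibniz_div, h6, h2ω]
      simp
    have ht' : D₂' t = -(D₂' (u 0) * algebraMap k K (3 * τ / ω)) := by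
      rw [ht, D₂'.leibniz, hc _ hD3, map_sub, h2u1]
      simp only [smul_eq_mul, mul_zero, zero_add, zero_sub]
      ring
    have hs' : D₂' s = D₂' (u 0) + ρ * D₂' t := by
      rw [hs, map_add, D₂'.leibniz, hρ, hc _ hDρ]
      simp only [smul_eq_mul, mul_zero, add_zero]
    have hw1 : D₂' (g 1) = algebraMap k K τ * D₂' s - D₂' t := by
      rw [hg1, map_sub, D₂'.leibniz, hc τ h2τ]
      simp only [smul_eq_mul, mul_zero, add_zero]
    have hw2 : D₂' (g 2) = algebraMap k K a * D₂' s := by
      rw [hg2, D₂'.leibniz, hc a h2a]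
      simp only [smul_eq_mul, mul_zero, add_zero]
    have h3K : algebraMap k K (3 * τ / ω) ≠ 0 :=
      (map_ne_zero _).2 (div_ne_zero (mul_ne_zero three_ne_zero hτ0) hω0)
    have hμ : g 1 * D₂' (g 2) - g 2 * D₂' (g 1) =
        -(algebraMap k K a * algebraMap k K (3 * τ / ω) * D₂' (u 0) * u 1) := by
      rw [hw1, hw2, hg1, hg2, hs', ht']
      rw [hs, ht]
      ring
    have hμ0 : g 1 * D₂' (g 2) - g 2 * D₂' (g 1) ≠ 0 := by
      rw [hμ]
      exact neg_ne_zero.2 (mul_ne_zero (mul_ne_zero (mul_ne_zero haK h3K) h2u0) hu1)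
    have hdet : Pool.Agent.Y166.DP.wr D₁' D₂' g = -((g 1 * D₂' (g 2) - g 2 * D₂' (g 1)) *
        (D₁' (g 0) + algebraMap k K τ ^ 3 * D₁' (g 1) + algebraMap k K a ^ 3 * D₁' (g 2))) := by
      rw [wr_apply]
      linear_combination (D₁' (g 1) * D₂' (g 2) - D₁' (g 2) * D₂' (g 1)) * hline +
        (g 1 * D₁' (g 2) - g 2 * D₁' (g 1)) * hline2
    rw [hdet]
    exact neg_ne_zero.2 (mul_ne_zero hμ0 hLV)

end Pool.Agent.Y179.DP
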