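import Pool.Agent.Y179.DP.KS
import Pool.Agent.Y179.DP.Mov

/-!
# Project DP: derivations with vanishing determinant (B5)
-/

set_option autoImplicit false

namespace Pool.Agent.Y179.DP

open FF Pool.Agent.W603.LV Pool.Agent.TH145.GH Pool.Agent.Y166.DP

section

variable {k K : Type} [Field k] [Field K] [Algebra k K] [CharZero k] [IsAlgClosed k] [IsFF k K]

theorem ne_zero_of_ht {g : Fin 3 → K} (hg : 0 < ht k g) : g ≠ 0 := by
  rintro rfl
  have h := ht_const (K := K) (0 : Fin 3 → k)
  simp only [Pi.zero_apply, map_zero] at h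
  have h2 : ht k (0 : Fin 3 → K) = 0 := h
  rw [h2] at hg
  exact lt_irrefl _ hg

/-- the functions and their derivatives are independent -/
theorem ker_indep {δ : Derivation k K K} (hδ : δ ≠ 0) {g : Fin 3 → K} (hg : 0 < ht k g)
    {α β : K} (h : ∀ i, α * g i + β * δ (g i) = 0) : α = 0 ∧ β = 0 := by
  obtain ⟨j, hj⟩ := Function.ne_iff.1 (ne_zero_of_ht hg)
  have hj' : g j ≠ 0 := hj
  by_cases hβ : β = 0
  · have h1 := h j
    rw [hβ, zero_mul, add_zero] at h1
    exact ⟨(mul_eq_zero.1 h1).resolve_right hj', hβ⟩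
  · exfalso
    have h1 : ∀ i, δ (g i) = -(α / β) * g i := by
      intro i
      have := h i
      field_simp
      linear_combination this
    have h2 : ∀ i, δ (g i / g j) = 0 := by
      intro i
      rw [Derivation.leibniz_div, h1, h1 j]
      simp only [smul_eq_mul]
      ring
    choose c hc using fun i => const_of_der hδ (h2 i)
    have h3 : g = fun i => g j * algebraMap k K (c i) := by
      funext i
      rw [← hc i, mul_div_cancel₀ _ hj']
    rw [h3, ht_mul_const] at hg
    exact lt_irrefl _ hg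

theorem y_ne_zero {lam : k} {x y : K} (hE : Ell k K lam x y) : y ≠ 0 := by
  intro hy
  have h1 := hE.eqn
  rw [hy] at h1
  have h2 : x * (x - 1) * (x - algebraMap k K lam) = 0 := by rw [← h1]; ring
  apply hE.tr
  rcases mul_eq_zero.1 h2 with h3 | h3
  · rcases mul_eq_zero.1 h3 with h4 | h4
    · rw [h4]
      exact isAlgebraic_zero
    · rw [sub_eq_zero.1 h4]
      exact isAlgebraic_one
  · rw [sub_eq_zero.1 h3]
    exact isAlgebraic_algebraMap _

/-- decomposition of the derivative -/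
theorem ker_dec (hKS : StmKS) {lam : k} {x y : K} (hE : Ell k K lam x y) {g : Fin 3 → K}
    (hg : 0 < ht k g) (hgen : ∀ i₀, g i₀ ≠ 0 → IntermediateField.adjoin k
      (Set.range fun i => g i / g i₀) = ⊤) {δ : Derivation k K K} (hδx : δ x = 2 * y)
    {D : Derivation ℤ k k} {D' : Derivation ℤ K K} (hL : Lifts D D') (hD'x : D' x = 0)
    (hw : Pool.Agent.Y166.DP.wr δ D' g = 0) :
    D lam = 0 ∧ ∃ (α : K) (b : k), (∀ i, D' (g i) = α * g i + algebraMap k K b * δ (g i)) ∧
      (b = 0 → D' y = 0) := by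
  have hck : CharZero K := charZero_of_injective_algebraMap (algebraMap k K).injective
  have h2y : 2 * y ≠ 0 := mul_ne_zero two_ne_zero (y_ne_zero hE)
  have hδ : δ ≠ 0 := by
    rintro rfl
    exact h2y hδx.symm
  have hg0 := ne_zero_of_ht hg
  obtain ⟨v, hv0, hv⟩ := Matrix.exists_vecMul_eq_zero_iff.2 hw
  have hv' : ∀ i, v 0 * g i + v 1 * δ (g i) + v 2 * D' (g i) = 0 := by
    intro i
    have := congrFun hv i
    simpa [Matrix.vecMul, dotProduct, Fin.sum_univ_three] using this
  have hv2 : v 2 ≠ 0 := by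
    intro h
    obtain ⟨h0, h1⟩ := ker_indep hδ hg (α := v 0) (β := v 1) (by
      intro i
      have := hv' i
      rwa [h, zero_mul, add_zero] at this)
    apply hv0
    funext i
    fin_cases i
    · exact h0
    · exact h1
    · exact h
  set β : K := -(v 1) / v 2 with hβ
  have hdec : ∀ i, D' (g i) = (-(v 0) / v 2) * g i + β * δ (g i) := by
    intro i
    rw [hβ]
    field_simp
    linear_combination hv' i
  obtain ⟨D2, hD2⟩ : ∃ D2 : Derivation ℤ K K, ∀ f, D2 f = D' f - β * δ f :=
    ⟨D' - β • (δ.restrictScalars ℤ), fun f => by simp⟩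
  have hL2 : Lifts D D2 := by
    intro c
    rw [hD2, hL, Derivation.map_algebraMap, mul_zero, sub_zero]
  have hS2 : Sem k D2 := fun c => ⟨D c, hL2 c⟩
  have hD2g : ∀ i, D2 (g i) = (-(v 0) / v 2) * g i := by
    intro i
    rw [hD2, hdec]
    ring
  have hreg : ∀ (P : Place k K) (f : K), Ge P 0 f → Ge P 0 (D2 f) := by
    intro P
    obtain ⟨j, hj0, hj⟩ := exists_mo P hg0
    refine stmReg k K P D2 hS2 (Set.range fun i => g i / g j) ?_ ?_ (hgen j hj0)
    · rintro _ ⟨i, rfl⟩
      simp only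
      rw [Derivation.leibniz_div, hD2g, hD2g]
      simp only [smul_eq_mul]
      ring
    · rintro _ ⟨i, rfl⟩
      have h1 : Ge P (0 + mo P g) (g j * (g i / g j)) := by
        rw [mul_div_cancel₀ _ hj0, zero_add]
        exact ge_mo P g i
      exact Ge.of_mul' hj0 hj h1
  obtain ⟨hlam, b, hbx, hby⟩ := hKS k K lam x y hE D D2 hL2 hreg
  have hβb : β = algebraMap k K (-b) := by
    rw [hD2, hD'x, hδx, zero_sub] at hbx
    rw [map_neg]
    have h1 : (β + algebraMap k K b) * (2 * y) = 0 := by linear_combination -hbx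
    have h2 := (mul_eq_zero.1 h1).resolve_right h2y
    linear_combination h2
  refine ⟨hlam, -(v 0) / v 2, -b, ?_, ?_⟩
  · intro i
    rw [← hβb]
    exact hdec i
  · intro hb
    have hb0 : b = 0 := neg_eq_zero.1 hb
    rw [hb0, map_zero, zero_mul, hD2, hβb, hb0, neg_zero, map_zero, zero_mul, sub_zero] at hby
    exact hby

/-- the order of the function `fn x y j` at infinity -/
def od (j : ℕ) : ℤ := if j = 0 then 0 else -((j : ℤ) + 1)

theorem od_lt {i j : ℕ} (h : i < j) : od j + 1 ≤ od i := by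
  unfold od
  split_ifs <;> omega

theorem ge_fsum {x y : K} {o : Place k K}
    (hfn : ∀ j : ℕ, fn x y j ≠ 0 ∧ o.ord (fn x y j) = od j) {N : ℕ} {c : Fin N → k} {M : ℤ}
    (h : ∀ j, c j ≠ 0 → M ≤ od j) : Ge o M (fsum x y c) := by
  unfold fsum
  refine Ge.sum _ _ fun j _ => ?_
  by_cases hc : c j = 0
  · rw [hc, map_zero, zero_mul]
    exact Ge.zero
  · have h1 : Ge o (od j) (fn x y j) := Or.inr (hfn j).2.ge
    have := (Ge.const (P := o) (c j)).mul h1
    exact this.mono (by have := h j hc; omega)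

theorem ord_fsum {x y : K} {o : Place k K}
    (hfn : ∀ j : ℕ, fn x y j ≠ 0 ∧ o.ord (fn x y j) = od j) {N : ℕ} {c : Fin N → k} {j₀ : Fin N}
    (h0 : c j₀ ≠ 0) (h : ∀ j, j₀ < j → c j = 0) :
    fsum x y c ≠ 0 ∧ o.ord (fsum x y c) = od j₀ := by
  classical
  have e : fsum x y c = algebraMap k K (c j₀) * fn x y j₀ + fsum x y (Function.update c j₀ 0) := by
    unfold fsum
    rw [← Finset.add_sum_erase _ _ (Finset.mem_univ j₀),
      ← Finset.add_sum_erase (Finset.univ : Finset (Fin N))
        (fun j => algebraMap k K (Function.update c j₀ 0 j) * fn x y j) (Finset.mem_univ j₀)]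
    simp only [Function.update_self, map_zero, zero_mul, zero_add]
    congr 1
    refine Finset.sum_congr rfl fun j hj => ?_
    rw [Function.update_of_ne (Finset.ne_of_mem_erase hj)]
  have h1 : Ge o (od j₀ + 1) (fsum x y (Function.update c j₀ 0)) := by
    apply ge_fsum hfn
    intro j hj
    have hjne : j ≠ j₀ := by
      rintro rfl
      rw [Function.update_self] at hj
      exact hj rfl
    rw [Function.update_of_ne hjne] at hj
    rcases lt_or_gt_of_ne hjne with h2 | h2
    · exact od_lt h2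
    · exact absurd (h j h2) hj
  have h2 : algebraMap k K (c j₀) * fn x y j₀ ≠ 0 :=
    mul_ne_zero ((map_ne_zero _).2 h0) (hfn j₀).1
  have h3 : o.ord (algebraMap k K (c j₀) * fn x y j₀) = od j₀ := by
    rw [o.ord_mul ((map_ne_zero _).2 h0) (hfn j₀).1, o.ord_const h0, (hfn j₀).2, zero_add]
  rw [e]
  by_cases h4 : fsum x y (Function.update c j₀ 0) = 0
  · rw [h4, add_zero]
    exact ⟨h2, h3⟩
  · have h5 := o.ord_add_eq h2 h4 (by
      have := h1.resolve_left h4
      omega)
    rw [h3] at h5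
    exact h5

omit [CharZero k] [IsAlgClosed k] [IsFF k K] in
theorem der_fn {x y : K} {D' : Derivation ℤ K K} (hx : D' x = 0) (hy : D' y = 0) (j : ℕ) :
    D' (fn x y j) = 0 := by
  unfold fn
  split_ifs
  · exact D'.map_one_eq_zero
  · rw [D'.leibniz_pow, hx]
    simp
  · rw [D'.leibniz, D'.leibniz_pow, hx, hy]
    simp

omit [CharZero k] [IsAlgClosed k] [IsFF k K] in
theorem der_fsum {x y : K} {D : Derivation ℤ k k} {D' : Derivation ℤ K K} (hL : Lifts D D')
    (hx : D' x = 0) (hy : D' y = 0) {N : ℕ} (c : Fin N → k) :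
    D' (fsum x y c) = fsum x y (fun j => D (c j)) := by
  unfold fsum
  rw [map_sum]
  refine Finset.sum_congr rfl fun j _ => ?_
  rw [D'.leibniz, der_fn hx hy, hL]
  simp only [smul_eq_mul, mul_zero, zero_add]
  ring

/-- the eigenvalue is a logarithmic derivative of a coordinate -/
theorem ker_alpha (hNo1 : StmNo1) (hBasis : StmBasis) {lam : k} {x y : K}
    (hE : Ell k K lam x y) {o : Place k K} (hox : o.ord x < 0)
    (hP : ∀ P, P ≠ o → Ge P 0 x ∧ Ge P 0 y) {d : ℕ} {c : Fin 3 × Fin (d + 1) → k} {g : Fin 3 → K}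
    (hgc : ∀ i, g i = fsum x y fun j => c (i, j)) (hd : 1 ≤ d) (hht : ht k g = d) :
    ∃ p₀ : Fin 3 × Fin (d + 1), c p₀ ≠ 0 ∧ ∀ (D : Derivation ℤ k k) (D' : Derivation ℤ K K),
      Lifts D D' → D' x = 0 → D' y = 0 → ∀ α : K, (∀ i, D' (g i) = α * g i) →
      α = algebraMap k K (D (c p₀) / c p₀) := by
  classical
  obtain ⟨hfn', hind, hsp⟩ := hBasis k K lam x y hE o hox
  have hfn : ∀ j : ℕ, fn x y j ≠ 0 ∧ o.ord (fn x y j) = od j := hfn'
  have hg0 : g ≠ 0 := ne_zero_of_ht (by rw [hht]; exact_mod_cast hd)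
  obtain ⟨i₀, hi0, hi⟩ := exists_mo o hg0
  -- the top coefficient
  have hne : ((Finset.univ : Finset (Fin (d + 1))).filter fun j => c (i₀, j) ≠ 0).Nonempty := by
    rw [Finset.filter_nonempty_iff]
    by_contra hcon
    push Not at hcon
    apply hi0
    rw [hgc]
    unfold fsum
    refine Finset.sum_eq_zero fun j _ => ?_
    have := hcon j (Finset.mem_univ _)
    simp only [this, map_zero, zero_mul]
  obtain ⟨j₀, hj₀, hmax⟩ := Finset.exists_max_image _ id hne
  have hc0 : c (i₀, j₀) ≠ 0 := (Finset.mem_filter.1 hj₀).2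
  have htop : ∀ j, j₀ < j → c (i₀, j) = 0 := by
    intro j hj
    by_contra hcon
    have := hmax j (Finset.mem_filter.2 ⟨Finset.mem_univ _, hcon⟩)
    exact absurd hj (not_lt.2 this)
  have hord : o.ord (g i₀) = od j₀ := by
    rw [hgc]
    exact (ord_fsum hfn (c := fun j => c (i₀, j)) hc0 htop).2
  refine ⟨(i₀, j₀), hc0, ?_⟩
  intro D D' hL hDx hDy α hα
  set c0 := c (i₀, j₀) with hc0def
  by_contra hcon
  set α' : K := α - algebraMap k K (D c0 / c0) with hα'
  have hα'0 : α' ≠ 0 := sub_ne_zero.2 hcon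
  have hS : Sem k D' := fun c => ⟨D c, hL c⟩
  -- at infinity
  have h1 : Ge o 1 α' := by
    have e : g i₀ * α' = fsum x y (fun j => D (c (i₀, j)) - D c0 / c0 * c (i₀, j)) := by
      have h2 : fsum x y (fun j => D (c (i₀, j)) - D c0 / c0 * c (i₀, j)) =
          fsum x y (fun j => D (c (i₀, j))) - algebraMap k K (D c0 / c0) *
            fsum x y (fun j => c (i₀, j)) := by
        unfold fsum
        rw [Finset.mul_sum, ← Finset.sum_sub_distrib]
        refine Finset.sum_congr rfl fun j _ => ?_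
        rw [map_sub, map_mul]
        ring
      rw [h2, ← der_fsum hL hDx hDy, ← hgc, hα, hα']
      ring
    refine Ge.of_mul' hi0 hord ?_
    rw [e, add_comm]
    apply ge_fsum hfn
    intro j hj
    rcases lt_trichotomy j j₀ with h3 | h3 | h3
    · exact od_lt h3
    · exfalso
      apply hj
      rw [h3, ← hc0def, div_mul_cancel₀ _ hc0, sub_self]
    · exfalso
      apply hj
      rw [htop j h3, map_zero, mul_zero, sub_zero]
  -- lower bounds of the minimal orders
  have hgr : ∀ i, (∀ P, P ≠ o → Ge P 0 (g i)) ∧ Ge o (-((d + 1 : ℕ) : ℤ)) (g i) := by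
    intro i
    exact (hsp (d + 1) (Nat.succ_pos d) (g i)).2 ⟨_, hgc i⟩
  have hmoP : ∀ P, P ≠ o → 0 ≤ mo P g := fun P hPo => le_mo P hg0 fun i => (hgr i).1 P hPo
  have hmoo : -((d + 1 : ℕ) : ℤ) ≤ mo o g := le_mo o hg0 fun i => (hgr i).2
  have hloc : ∀ P, P ≠ o → Ge P (-(mo P g)) α' := by
    intro P hPo
    obtain ⟨i, hi0', hi'⟩ := exists_mo P hg0
    have h2 : Ge P 0 (D' (g i)) := by
      refine stmReg k K P D' hS {x, y} ?_ ?_ hE.gen (g i) ((hgr i).1 P hPo)
      · rintro s (rfl | hs)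
        · exact hDx
        · rw [Set.mem_singleton_iff] at hs
          rw [hs]
          exact hDy
      · rintro s (rfl | hs)
        · exact (hP P hPo).1
        · rw [Set.mem_singleton_iff] at hs
          rw [hs]
          exact (hP P hPo).2
    rw [hα, mul_comm] at h2
    have h3 : Ge P (-(mo P g)) α := by
      refine Ge.of_mul' hi0' hi' ?_
      rw [neg_add_cancel]
      exact h2
    refine h3.sub ((Ge.const (P := P) (D c0 / c0)).mono ?_)
    have := hmoP P hPo
    omega
  -- a finite set of places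
  set T : Finset (Place k K) := insert o ((mo_supp (k := k) g).toFinset ∪
    (finite_support (k := k) α').toFinset) with hT
  have hoT : o ∈ T := Finset.mem_insert_self _ _
  have hT1 : ∀ P, mo P g ≠ 0 → P ∈ T := by
    intro P h
    rw [hT]
    simp [h]
  have hT2 : ∀ P : Place k K, P.ord α' ≠ 0 → P ∈ T := by
    intro P h
    rw [hT]
    simp [h]
  have hsum1 := ht_finset g T hT1
  rw [hht, ← Finset.add_sum_erase T _ hoT] at hsum1
  have hsum2 := sum_ord_finset α' T hT2
  rw [← Finset.add_sum_erase T _ hoT] at hsum2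
  have ho1 : 1 ≤ o.ord α' := h1.resolve_left hα'0
  obtain ⟨P₀, hP₀T, hP₀⟩ : ∃ P₀ ∈ T.erase o, P₀.ord α' < 0 := by
    by_contra hcon
    push Not at hcon
    have := Finset.sum_nonneg hcon
    omega
  have hP₀o : P₀ ≠ o := Finset.ne_of_mem_erase hP₀T
  have hmo0 : 1 ≤ mo P₀ g := by
    have := (hloc P₀ hP₀o).resolve_left hα'0
    omega
  rw [← Finset.add_sum_erase (T.erase o) _ hP₀T] at hsum1
  have hnn : ∀ P ∈ (T.erase o).erase P₀, 0 ≤ mo P g := by
    intro P hP'
    exact hmoP P (Finset.ne_of_mem_erase (Finset.mem_of_mem_erase hP'))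
  have hs0 := Finset.sum_nonneg hnn
  push_cast at hmoo
  have hmo1 : mo P₀ g = 1 := by omega
  have hs1 : ∑ P ∈ (T.erase o).erase P₀, mo P g = 0 := by omega
  have hz := (Finset.sum_eq_zero_iff_of_nonneg hnn).1 hs1
  refine hNo1 k K lam x y hE α' P₀ ?_ ?_
  · have := (hloc P₀ hP₀o).resolve_left hα'0
    omega
  · intro P hPP
    by_cases hPo : P = o
    · rw [hPo]
      exact h1.mono (by omega)
    · have h2 : mo P g = 0 := by
        by_contra h3
        exact h3 (hz P (Finset.mem_erase.2 ⟨hPP, Finset.mem_erase.2 ⟨hPo, hT1 P h3⟩⟩))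
      have h3 := hloc P hPo
      rwa [h2, neg_zero] at h3

end

theorem stmKer : StmInf → StmNo1 → StmBasis → StmExt → StmKer := by
  intro hInf hNo1 hBasis hExt k K _ _ _ _ _ _ lam x y hE d c hd hht hgen δ hδx 𝒟 h𝒟 hwr
  have hKS : StmKS := stmKS hInf hBasis
  obtain ⟨o, hox, hoy, hP⟩ := hInf k K lam x y hE
  obtain ⟨-, hind, -⟩ := hBasis k K lam x y hE o (by omega)
  obtain ⟨hlift, huniq⟩ := hExt k K x hE.tr
  obtain ⟨g, hgdef⟩ : ∃ g : Fin 3 → K, g = fun i => fsum x y fun j => c (i, j) := ⟨_, rfl⟩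
  have hgc : ∀ i, g i = fsum x y fun j => c (i, j) := fun i => by rw [hgdef]
  rw [← hgdef] at hht hwr
  have hgen' : ∀ i₀, g i₀ ≠ 0 → IntermediateField.adjoin k
      (Set.range fun i => g i / g i₀) = ⊤ := by
    rw [hgdef]
    exact hgen
  have hck : CharZero K := charZero_of_injective_algebraMap (algebraMap k K).injective
  have h2y : 2 * y ≠ 0 := mul_ne_zero two_ne_zero (y_ne_zero hE)
  have hδ : δ ≠ 0 := by
    rintro rfl
    exact h2y hδx.symm
  have hgpos : 0 < Pool.Agent.Y166.DP.ht k g := by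
    rw [hht]
    exact_mod_cast hd
  obtain ⟨p₀, hp₀, hα⟩ := ker_alpha hNo1 hBasis hE (o := o) (by omega) hP hgc hd hht
  -- the predicate
  let Pr : Derivation ℤ k k → k → Prop := fun D b => ∃ D' : Derivation ℤ K K, Lifts D D' ∧
    D' x = 0 ∧ ∃ α : K, ∀ i, D' (g i) = α * g i + algebraMap k K b * δ (g i)
  have hu : ∀ D b b', Pr D b → Pr D b' → b = b' := by
    rintro D b b' ⟨D1, hL1, hx1, α1, h1⟩ ⟨D2, hL2, hx2, α2, h2⟩
    have h3 : D1 = D2 := huniq D1 D2 (fun c => by rw [hL1, hL2]) (by rw [hx1, hx2])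
    subst h3
    obtain ⟨-, h4⟩ := ker_indep hδ hgpos (α := α1 - α2)
      (β := algebraMap k K b - algebraMap k K b') (by
        intro i
        linear_combination h2 i - h1 i)
    exact (algebraMap k K).injective (sub_eq_zero.1 h4)
  have hex : ∀ D : 𝒟, ∃ b : k, Pr D b := by
    intro D
    obtain ⟨D', hL, hx⟩ := hlift (D : Derivation ℤ k k)
    obtain ⟨-, α, b, h1, -⟩ := ker_dec hKS hE hgpos hgen' hδx hL hx (hwr D D.2 D' hL)
    exact ⟨b, D', hL, hx, α, h1⟩
  choose β hβ using hex
  let φ : 𝒟 →ₗ[k] k × k :=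
    { toFun := fun D => (β D, (D : Derivation ℤ k k) (c p₀))
      map_add' := by
        intro D1 D2
        refine Prod.ext ?_ rfl
        apply hu _ _ _ (hβ (D1 + D2))
        obtain ⟨D1', hL1, hx1, α1, h1⟩ := hβ D1
        obtain ⟨D2', hL2, hx2, α2, h2⟩ := hβ D2
        refine ⟨D1' + D2', ?_, ?_, α1 + α2, ?_⟩
        · intro c
          rw [Derivation.add_apply, hL1, hL2, ← map_add]
          rfl
        · rw [Derivation.add_apply, hx1, hx2, add_zero]
        · intro i
          rw [Derivation.add_apply, h1, h2]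
          simp only [Prod.mk_add_mk, map_add]
          ring
      map_smul' := by
        intro a D1
        refine Prod.ext ?_ rfl
        apply hu _ _ _ (hβ (a • D1))
        obtain ⟨D1', hL1, hx1, α1, h1⟩ := hβ D1
        refine ⟨algebraMap k K a • D1', ?_, ?_, algebraMap k K a * α1, ?_⟩
        · intro c
          rw [Derivation.smul_apply, hL1, smul_eq_mul, ← map_mul]
          rfl
        · rw [Derivation.smul_apply, hx1, smul_zero]
        · intro i
          rw [Derivation.smul_apply, h1]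
          simp only [RingHom.id_apply, Prod.smul_mk, smul_eq_mul, map_mul]
          ring }
  have hinj : Function.Injective φ := by
    rw [injective_iff_map_eq_zero]
    intro D hD
    have hβ0 : β D = 0 := congrArg Prod.fst hD
    have hc0 : (D : Derivation ℤ k k) (c p₀) = 0 := congrArg Prod.snd hD
    obtain ⟨D', hL, hx⟩ := hlift (D : Derivation ℤ k k)
    obtain ⟨hlam, α, b, h1, hby⟩ := ker_dec hKS hE hgpos hgen' hδx hL hx (hwr D D.2 D' hL)
    have hb0 : b = 0 := by
      rw [← hβ0]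
      exact hu _ _ _ ⟨D', hL, hx, α, h1⟩ (hβ D)
    have hy := hby hb0
    have h2 : ∀ i, D' (g i) = α * g i := by
      intro i
      rw [h1, hb0, map_zero, zero_mul, add_zero]
    have h3 := hα D D' hL hx hy α h2
    rw [hc0, zero_div, map_zero] at h3
    have h4 : ∀ p, (D : Derivation ℤ k k) (c p) = 0 := by
      rintro ⟨i, j⟩
      have h5 : fsum x y (fun j => (D : Derivation ℤ k k) (c (i, j))) = 0 := by
        rw [← der_fsum hL hx hy, ← hgc, h2, h3, zero_mul]
      exact congrFun (hind _ _ h5) j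
    exact Subtype.ext (h𝒟 D D.2 hlam h4)
  refine ⟨Module.Finite.of_injective φ hinj, ?_⟩
  have h1 := LinearMap.finrank_le_finrank_of_injective hinj
  rw [Module.finrank_prod, Module.finrank_self] at h1
  exact h1

end Pool.Agent.Y179.DP
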