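import Pool.Agent.Y166.DP.Stm

/-!
# Project DP: derivations at a place (B3, B8)
-/

set_option autoImplicit false

namespace Pool.Agent.Y179.DP

open FF Pool.Agent.W603.LV Pool.Agent.TH145.GH Pool.Agent.Y166.DP

section

variable {k K : Type} [Field k] [Field K] [Algebra k K]

theorem pi_ne {P : Place k K} {π : K} (hπ : P.ord π = 1) : π ≠ 0 := by
  rintro rfl
  rw [P.ord_zero] at hπ
  omega

theorem ge_zpow {P : Place k K} {π : K} (hπ : P.ord π = 1) (n : ℤ) : Ge P n (π ^ n) :=
  Or.inr (by rw [P.ord_zpow, hπ, mul_one])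

theorem ge_unit {P : Place k K} {π : K} (hπ : P.ord π = 1) {n : ℤ} {f : K} (hf : Ge P n f) :
    Ge P 0 (f * π ^ (-n)) := by
  have := hf.mul (ge_zpow hπ (-n))
  rwa [add_neg_cancel] at this

theorem eq_zpow_mul {P : Place k K} {π : K} (hπ : P.ord π = 1) (n : ℤ) (f : K) :
    f = π ^ n * (f * π ^ (-n)) := by
  have h0 := zpow_ne_zero n (pi_ne hπ)
  rw [zpow_neg]
  field_simp

variable [CharZero k] [IsAlgClosed k] [IsFF k K]

/-- a derivation is the sum of a derivation which kills the uniformizer and a multiple of a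
derivation over the constants -/
theorem decomp (P : Place k K) {π : K} (hπ : P.ord π = 1) {D' : Derivation ℤ K K}
    (hS : Sem k D') : ∃ (δ : Derivation k K K) (D1 : Derivation ℤ K K), δ π = 1 ∧ D1 π = 0 ∧
      (∀ f, D' f = D1 f + D' π * δ f) ∧ (∀ f, Ge P 0 f → Ge P 0 (D1 f)) ∧
      ∀ f, Ge P 0 f → Ge P 0 (δ f) := by
  obtain ⟨d, hd0⟩ := exists_der (k := k) (K := K)
  have h0 := der_pi_ne_zero hd0 P hπ
  obtain ⟨δ, hδ⟩ : ∃ δ : Derivation k K K, δ = (d π)⁻¹ • d := ⟨_, rfl⟩
  have hδπ : δ π = 1 := by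
    rw [hδ]; simp [h0]
  obtain ⟨D1, hD1⟩ : ∃ D1 : Derivation ℤ K K, ∀ f, D1 f = D' f - D' π * δ f :=
    ⟨D' - D' π • (δ.restrictScalars ℤ), fun f => by simp⟩
  have hS1 : Sem k D1 := by
    intro c
    obtain ⟨c', hc'⟩ := hS c
    exact ⟨c', by rw [hD1, hc', Derivation.map_algebraMap, mul_zero, sub_zero]⟩
  have hD1π : D1 π = 0 := by rw [hD1, hδπ, mul_one, sub_self]
  refine ⟨δ, D1, hδπ, hD1π, ?_, ?_, ?_⟩
  · intro f
    rw [hD1]
    ring
  · intro f hf
    exact reg_of_zero P hπ hS1 hD1π hf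
  · intro f hf
    exact der_reg P hπ δ hδπ hf

omit [CharZero k] [IsAlgClosed k] [IsFF k K] in
/-- a derivation with `D π ∈ (π)` which preserves the local ring preserves the order -/
theorem ge_of_pres {P : Place k K} {π : K} (hπ : P.ord π = 1) {D : Derivation ℤ K K}
    (hD : ∀ f, Ge P 0 f → Ge P 0 (D f)) (hDπ : Ge P 1 (D π)) {n : ℤ} {f : K} (hf : Ge P n f) :
    Ge P n (D f) := by
  have hu := ge_unit hπ hf
  rw [eq_zpow_mul hπ n f, D.leibniz, Derivation.leibniz_zpow]
  simp only [smul_eq_mul, zsmul_eq_mul]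
  refine Ge.add ?_ ?_
  · have := (ge_zpow hπ n).mul (hD _ hu)
    rwa [add_zero] at this
  · have h1 := ((Ge.intCast (P := P) n).mul ((ge_zpow hπ (n - 1)).mul hDπ))
    have h2 := hu.mul h1
    refine Ge.mono ?_ h2
    omega

end

theorem stmPres : StmPres := by
  intro k K _ _ _ _ _ _ P D' hS
  constructor
  · intro π hπ f hf0 hf hDf
    obtain ⟨δ, D1, hδπ, hD1π, hdec, h1, h2⟩ := decomp P hπ hS
    set e := P.ord f with he
    have hfe : Ge P e f := Or.inr le_rfl
    have hu := ge_unit hπ hfe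
    set u := f * π ^ (-e) with hudef
    have hπ0 := pi_ne hπ
    have hu0 : u ≠ 0 := mul_ne_zero hf0 (zpow_ne_zero _ hπ0)
    have huo : P.ord u = 0 := by
      rw [hudef, P.ord_mul hf0 (zpow_ne_zero _ hπ0), P.ord_zpow, hπ, ← he]
      ring
    have hfu : f = π ^ e * u := eq_zpow_mul hπ e f
    rw [hfu, D'.leibniz, Derivation.leibniz_zpow, hdec u] at hDf
    simp only [smul_eq_mul, zsmul_eq_mul] at hDf
    have h3 : (((e : ℤ) : K) * u + π * δ u) * D' π = -(π * D1 u) := by
      have h4 : π ^ (e - 1) * ((((e : ℤ) : K) * u + π * δ u) * D' π + π * D1 u) = 0 := by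
        rw [← hDf]
        have h5 : π ^ e = π ^ (e - 1) * π := by
          rw [← zpow_add_one₀ hπ0]
          congr 1
          ring
        rw [h5]
        ring
      have h6 := (mul_eq_zero.1 h4).resolve_left (zpow_ne_zero _ hπ0)
      linear_combination h6
    have heK : ((e : ℤ) : K) ≠ 0 := by
      have hc : CharZero K := charZero_of_injective_algebraMap (algebraMap k K).injective
      exact_mod_cast hf
    have heo : P.ord ((e : ℤ) : K) = 0 := by
      have h4 : ((e : ℤ) : K) = algebraMap k K ((e : ℤ) : k) := by rw [map_intCast]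
      rw [h4]
      exact P.ord_const (by exact_mod_cast hf)
    have hπ1 : Ge P 1 π := Or.inr hπ.ge
    have h4 : Ge P 1 (π * δ u) := by
      have := hπ1.mul (h2 u hu)
      rwa [add_zero] at this
    have h5 : ((e : ℤ) : K) * u + π * δ u ≠ 0 ∧ P.ord (((e : ℤ) : K) * u + π * δ u) = 0 := by
      have h6 : P.ord (((e : ℤ) : K) * u) = 0 := by rw [P.ord_mul heK hu0, heo, huo, add_zero]
      rcases h4 with h4 | h4
      · rw [h4, add_zero]
        exact ⟨mul_ne_zero heK hu0, h6⟩
      · by_cases h7 : π * δ u = 0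
        · rw [h7, add_zero]
          exact ⟨mul_ne_zero heK hu0, h6⟩
        · have h8 := P.ord_add_eq (mul_ne_zero heK hu0) h7 (by omega)
          rw [h6] at h8
          exact h8
    refine Ge.of_mul' h5.1 h5.2 ?_
    rw [h3, add_zero]
    have h6 := hπ1.mul (h1 u hu)
    rw [add_zero] at h6
    exact h6.neg
  · intro π hπ hDπ n f hf
    obtain ⟨δ, D1, hδπ, hD1π, hdec, h1, h2⟩ := decomp P hπ hS
    apply ge_of_pres hπ _ hDπ hf
    intro f hf
    rw [hdec]
    refine (h1 f hf).add ?_
    have := hDπ.mul (h2 f hf)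
    exact this.mono (by omega)

theorem stmReg : StmReg := by
  intro k K _ _ _ _ _ _ P D' hS S hS0 hSr htop f hf
  obtain ⟨π, hπ0, hπ⟩ := P.surj
  obtain ⟨δ, D1, hδπ, hD1π, hdec, h1, h2⟩ := decomp P hπ hS
  by_cases hc : Ge P 0 (D' π)
  · rw [hdec]
    refine (h1 f hf).add ?_
    have := hc.mul (h2 f hf)
    rwa [add_zero] at this
  exfalso
  have hc' : D' π ≠ 0 ∧ P.ord (D' π) < 0 := by
    unfold Ge at hc
    push Not at hc
    exact hc
  obtain ⟨N, hN⟩ : ∃ N : ℤ, P.ord (D' π) = -N := ⟨_, (neg_neg _).symm⟩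
  have hN1 : 1 ≤ N := by omega
  have hδ0 : δ ≠ 0 := by
    rintro rfl
    exact one_ne_zero hδπ.symm
  have hvo : vo P δ = 0 := by
    rw [← vo_eq P hπ hδ0, hδπ, P.ord_one]
  have hD1g : ∀ (n : ℤ) (f : K), Ge P n f → Ge P n (D1 f) := fun n f hf =>
    ge_of_pres hπ h1 (by rw [hD1π]; exact Ge.zero) hf
  -- the algebra generated by `S`
  have hA1 : ∀ a ∈ Algebra.adjoin k S, Ge P 0 a := by
    intro a ha
    induction ha using Algebra.adjoin_induction with
    | mem x hx => exact hSr x hx
    | algebraMap r => exact Ge.const r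
    | add x y _ _ hx hy => exact hx.add hy
    | mul x y _ _ hx hy =>
      have := hx.mul hy
      rwa [add_zero] at this
  have hA2 : ∀ a ∈ Algebra.adjoin k S, D' a ∈ Algebra.adjoin k S := by
    intro a ha
    induction ha using Algebra.adjoin_induction with
    | mem x hx =>
      rw [hS0 x hx]
      exact Subalgebra.zero_mem _
    | algebraMap r =>
      obtain ⟨c', hc'⟩ := hS r
      rw [hc']
      exact Subalgebra.algebraMap_mem _ _
    | add x y _ _ hx hy =>
      rw [map_add]
      exact Subalgebra.add_mem _ hx hy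
    | mul x y hxm hym hx hy =>
      rw [D'.leibniz]
      simp only [smul_eq_mul]
      exact Subalgebra.add_mem _ (Subalgebra.mul_mem _ hxm hy) (Subalgebra.mul_mem _ hym hx)
  have key : ∀ n : ℕ, ∀ a ∈ Algebra.adjoin k S, a ≠ 0 → P.ord a = n → (N + 1) ∣ P.ord a := by
    intro n
    induction n using Nat.strong_induction_on with
    | _ n ih =>
      intro a ha ha0 han
      rcases Nat.eq_zero_or_pos n with hn | hn
      · rw [han, hn]
        exact dvd_zero _
      · obtain ⟨h3, h4⟩ := ord_der P hδ0 (f := a) (by omega)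
        rw [hvo, han] at h4
        have h5 : P.ord (D' π * δ a) = n - 1 - N := by
          rw [P.ord_mul hc'.1 h3, h4, hN]
          ring
        have h6 : Ge P n (D1 a) := hD1g n a (Or.inr han.ge)
        have h7 : D' a ≠ 0 ∧ P.ord (D' a) = n - 1 - N := by
          rw [hdec a, add_comm]
          by_cases h8 : D1 a = 0
          · rw [h8, add_zero]
            exact ⟨mul_ne_zero hc'.1 h3, h5⟩
          · have h9 := P.ord_add_eq (mul_ne_zero hc'.1 h3) h8 (by
              have := h6.resolve_left h8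
              omega)
            rw [h5] at h9
            exact h9
        have h8 : 0 ≤ P.ord (D' a) := (hA1 _ (hA2 a ha)).resolve_left h7.1
        have h9 := ih (n - 1 - N).toNat (by omega) (D' a) (hA2 a ha) h7.1 (by omega)
        rw [h7.2] at h9
        rw [han]
        have h10 := dvd_add h9 (dvd_refl (N + 1))
        have h11 : (n : ℤ) - 1 - N + (N + 1) = n := by ring
        rwa [h11] at h10
  have key2 : ∀ a ∈ Algebra.adjoin k S, a ≠ 0 → (N + 1) ∣ P.ord a := by
    intro a ha ha0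
    have h3 : 0 ≤ P.ord a := (hA1 a ha).resolve_left ha0
    exact key (P.ord a).toNat a ha ha0 (by omega)
  have h3 : π ∈ IntermediateField.adjoin k S := by rw [htop]; trivial
  rw [IntermediateField.mem_adjoin_iff_div] at h3
  obtain ⟨a, ha, b, hb, hab⟩ := h3
  have ha0 : a ≠ 0 := by
    rintro rfl
    rw [zero_div] at hab
    exact hπ0 hab
  have hb0 : b ≠ 0 := by
    rintro rfl
    rw [div_zero] at hab
    exact hπ0 hab
  have h4 : (N + 1) ∣ 1 := by
    have h5 := dvd_sub (key2 a ha ha0) (key2 b hb hb0)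
    rwa [← P.ord_div ha0 hb0, ← hab, hπ] at h5
  have h5 := Int.le_of_dvd one_pos h4
  omega

end Pool.Agent.Y179.DP
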