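import Pool.Agent.Y179.DP.Pres

/-!
# Project DP: the local estimate (B2)
-/

set_option autoImplicit false

namespace Pool.Agent.Y179.DP

open FF Pool.Agent.W603.LV Pool.Agent.TH145.GH Pool.Agent.Y166.DP

section

variable {k K : Type} [Field k] [Field K] [Algebra k K]

theorem wr_apply (D₁ D₂ : K → K) (g : Fin 3 → K) : wr D₁ D₂ g =
    g 0 * (D₁ (g 1) * D₂ (g 2) - D₁ (g 2) * D₂ (g 1)) -
      g 1 * (D₁ (g 0) * D₂ (g 2) - D₁ (g 2) * D₂ (g 0)) +
      g 2 * (D₁ (g 0) * D₂ (g 1) - D₁ (g 1) * D₂ (g 0)) := by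
  unfold Pool.Agent.Y166.DP.wr
  rw [Matrix.det_fin_three]
  simp only [Matrix.of_apply, Matrix.cons_val_zero, Matrix.cons_val_one, Matrix.cons_val_two,
    Matrix.head_cons, Matrix.tail_cons, Matrix.cons_val]
  ring

/-- homogeneity of the determinant -/
theorem wr_mul (D₁ D₂ : Derivation ℤ K K) (f : K) (g : Fin 3 → K) :
    wr D₁ D₂ (fun i => f * g i) = f ^ 3 * wr D₁ D₂ g := by
  simp only [wr_apply, Derivation.leibniz, smul_eq_mul]
  ring

variable [CharZero k] [IsAlgClosed k] [IsFF k K]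

/-- a derivation over the constants of order zero preserves the local ring -/
theorem reg_of_vo (P : Place k K) {δ : Derivation k K K} (hδ : δ ≠ 0) (hv : vo P δ = 0) {f : K}
    (hf : Ge P 0 f) : Ge P 0 (δ f) := by
  obtain ⟨π, hπ0, hπ⟩ := P.surj
  obtain ⟨u, hu, e⟩ := der_mul P hπ hδ hf
  rw [e]
  have h1 : Ge P 0 (δ π) := Or.inr (by rw [vo_eq P hπ hδ, hv])
  have := h1.mul hu
  rwa [add_zero] at this

end

theorem stmLoc : StmLoc := by
  intro k K _ _ _ _ _ _ P δ hδ hv D' hS g hg hq hev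
  obtain ⟨π, hπ0, hπ⟩ := P.surj
  have hδπ : P.ord (δ π) = 0 := by rw [vo_eq P hπ hδ, hv]
  have hδπ0 : δ π ≠ 0 := der_pi_ne_zero hδ P hπ
  obtain ⟨D1, hD1⟩ : ∃ D1 : Derivation ℤ K K, ∀ f, D1 f = D' f - D' π / δ π * δ f :=
    ⟨D' - (D' π / δ π) • (δ.restrictScalars ℤ), fun f => by simp⟩
  have hS1 : Sem k D1 := by
    intro c
    obtain ⟨c', hc'⟩ := hS c
    exact ⟨c', by rw [hD1, hc', Derivation.map_algebraMap, mul_zero, sub_zero]⟩
  have hD1π : D1 π = 0 := by rw [hD1, div_mul_cancel₀ _ hδπ0, sub_self]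
  have h1 : ∀ f, Ge P 0 f → Ge P 0 (D1 f) := fun f hf => reg_of_zero P hπ hS1 hD1π hf
  have h2 : ∀ f, Ge P 0 f → Ge P 0 (δ f) := fun f hf => reg_of_vo P hδ hv hf
  have h1n : ∀ (n : ℤ) (f : K), Ge P n f → Ge P n (D1 f) := fun n f hf =>
    ge_of_pres hπ h1 (by rw [hD1π]; exact Ge.zero) hf
  have hwr : wr δ D' g = wr δ D1 g := by
    simp only [wr_apply, hD1]
    ring
  set e := mo P g with he
  set g' : Fin 3 → K := fun i => g i * π ^ (-e) with hg'
  have hgg : g = fun i => π ^ e * g' i := by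
    funext i
    exact eq_zpow_mul hπ e (g i)
  have hreg : ∀ i, Ge P 0 (g' i) := fun i => ge_unit hπ (ge_mo P g i)
  obtain ⟨i, hi0, hie⟩ := exists_mo P hg
  have hgi0 : g' i ≠ 0 := mul_ne_zero hi0 (zpow_ne_zero _ hπ0)
  have hgi : P.ord (g' i) = 0 := by
    change P.ord (g i * π ^ (-e)) = 0
    rw [P.ord_mul hi0 (zpow_ne_zero _ hπ0), P.ord_zpow, hπ, hie]
    ring
  have hwr2 : wr δ D' g = (π ^ e) ^ 3 * wr δ D1 g' := by
    rw [hwr, hgg]
    exact wr_mul (δ.restrictScalars ℤ) D1 (π ^ e) g'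
  have hqq : quart g = (π ^ e) ^ 4 * quart g' := by
    rw [hgg]
    unfold quart
    ring
  have hπe : π ^ e ≠ 0 := zpow_ne_zero _ hπ0
  have hq' : quart g' ≠ 0 := by
    intro h
    rw [h, mul_zero] at hqq
    exact hq hqq
  set n := P.ord (quart g') with hn
  have hqo : P.ord (quart g) = 4 * e + n := by
    rw [hqq, P.ord_mul (pow_ne_zero _ hπe) hq', P.ord_pow, P.ord_zpow, hπ]
    push_cast
    ring
  have hqr : Ge P 0 (quart g') := by
    unfold quart
    have h3 : ∀ i, Ge P 0 (g' i ^ 4) := fun i => by simpa using (hreg i).pow 4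
    exact ((h3 0).add (h3 1)).add (h3 2)
  have hn0 : 0 ≤ n := hqr.resolve_left hq'
  by_cases hw0 : wr δ D1 g' = 0
  · left
    rw [hwr2, hw0, mul_zero]
  right
  have hwo : P.ord (wr δ D' g) = 3 * e + P.ord (wr δ D1 g') := by
    rw [hwr2, P.ord_mul (pow_ne_zero _ hπe) hw0, P.ord_pow, P.ord_zpow, hπ]
    push_cast
    ring
  have hm : ∀ {a b : K}, Ge P 0 a → Ge P 0 b → Ge P 0 (a * b) := by
    intro a b ha hb
    have := ha.mul hb
    rwa [add_zero] at this
  have hw1 : 0 ≤ P.ord (wr δ D1 g') := by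
    refine Or.resolve_left (show Ge P 0 (wr δ D1 g') from ?_) hw0
    rw [wr_apply]
    have hA := fun i => h2 _ (hreg i)
    have hB := fun i => h1 _ (hreg i)
    exact ((hm (hreg 0) ((hm (hA 1) (hB 2)).sub (hm (hA 2) (hB 1)))).sub
      (hm (hreg 1) ((hm (hA 0) (hB 2)).sub (hm (hA 2) (hB 0))))).add
      (hm (hreg 2) ((hm (hA 0) (hB 1)).sub (hm (hA 1) (hB 0))))
  rw [hqo] at hev
  rcases Nat.eq_zero_or_pos n.toNat with hn1 | hn1
  · rw [hqo, hwo]
    omega
  -- `n ≥ 2`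
  have hn2 : 2 ≤ n := by
    obtain ⟨r, hr⟩ := hev
    omega
  have hδq : Ge P (n - 1) (δ (quart g')) := by
    have h3 := ord_der P hδ (f := quart g') (by omega)
    rw [hv] at h3
    exact Or.inr (by omega)
  have hDq : Ge P (n - 1) (D1 (quart g')) := (h1n n _ (Or.inr le_rfl)).mono (by omega)
  have hqn : Ge P (n - 1) (quart g') := Or.inr (by omega)
  have hδe : δ (quart g') = 4 * (g' 0 ^ 3 * δ (g' 0) + g' 1 ^ 3 * δ (g' 1) +
      g' 2 ^ 3 * δ (g' 2)) := by
    unfold quart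
    rw [map_add, map_add, δ.leibniz_pow, δ.leibniz_pow, δ.leibniz_pow]
    simp only [smul_eq_mul, nsmul_eq_mul]
    push_cast
    ring
  have hDe : D1 (quart g') = 4 * (g' 0 ^ 3 * D1 (g' 0) + g' 1 ^ 3 * D1 (g' 1) +
      g' 2 ^ 3 * D1 (g' 2)) := by
    unfold quart
    rw [map_add, map_add, D1.leibniz_pow, D1.leibniz_pow, D1.leibniz_pow]
    simp only [smul_eq_mul, nsmul_eq_mul]
    push_cast
    ring
  have h4 : Ge P 0 (4 : K) := by
    have := Ge.natCast (P := P) 4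
    exact_mod_cast this
  have h40 : (4 : K) ≠ 0 := by
    have hc : CharZero K := charZero_of_injective_algebraMap (algebraMap k K).injective
    norm_num
  have h4o : P.ord (4 : K) = 0 := by
    have h5 : (4 : K) = algebraMap k K 4 := by rw [map_ofNat]
    rw [h5]
    exact P.ord_const (by norm_num)
  have hA := fun i => h2 _ (hreg i)
  have hB := fun i => h1 _ (hreg i)
  have hg3 : 4 * g' i ^ 3 ≠ 0 := mul_ne_zero h40 (pow_ne_zero _ hgi0)
  have hg3o : P.ord (4 * g' i ^ 3) = 0 := by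
    rw [P.ord_mul h40 (pow_ne_zero _ hgi0), h4o, P.ord_pow, hgi]
    ring
  have hcomb : ∀ {a b c : K}, Ge P 0 a → Ge P 0 b → Ge P 0 c →
      Ge P (n - 1) (a * (4 * quart g') + b * δ (quart g') + c * D1 (quart g')) := by
    intro a b c ha hb hc
    refine Ge.add (Ge.add ?_ ?_) ?_
    · have := ha.mul (h4.mul hqn)
      rwa [zero_add, zero_add] at this
    · have := hb.mul hδq
      rwa [zero_add] at this
    · have := hc.mul hDq
      rwa [zero_add] at this
  have hfin : Ge P (n - 1) (4 * g' i ^ 3 * wr δ D1 g') := by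
    have hi3 : i = 0 ∨ i = 1 ∨ i = 2 := by
      fin_cases i
      · exact Or.inl rfl
      · exact Or.inr (Or.inl rfl)
      · exact Or.inr (Or.inr rfl)
    have hs : ∀ {a b c d : K}, Ge P 0 a → Ge P 0 b → Ge P 0 c → Ge P 0 d →
        Ge P 0 (a * b - c * d) := fun ha hb hc hd => (hm ha hb).sub (hm hc hd)
    rcases hi3 with rfl | rfl | rfl
    · have h5 := hcomb (hs (hA 1) (hB 2) (hA 2) (hB 1)) (hs (hreg 2) (hB 1) (hreg 1) (hB 2))
        (hs (hreg 1) (hA 2) (hreg 2) (hA 1))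
      convert h5 using 1
      rw [wr_apply, hδe, hDe]
      unfold quart
      ring
    · have h5 := hcomb (hs (hA 2) (hB 0) (hA 0) (hB 2)) (hs (hreg 0) (hB 2) (hreg 2) (hB 0))
        (hs (hreg 2) (hA 0) (hreg 0) (hA 2))
      convert h5 using 1
      rw [wr_apply, hδe, hDe]
      unfold quart
      ring
    · have h5 := hcomb (hs (hA 0) (hB 1) (hA 1) (hB 0)) (hs (hreg 1) (hB 0) (hreg 0) (hB 1))
        (hs (hreg 0) (hA 1) (hreg 1) (hA 0))
      convert h5 using 1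
      rw [wr_apply, hδe, hDe]
      unfold quart
      ring
  have h5 : Ge P (n - 1) (wr δ D1 g') := by
    apply Ge.of_mul' hg3 hg3o
    rwa [add_zero]
  have h6 := h5.resolve_left hw0
  rw [hqo, hwo]
  omega

end Pool.Agent.Y179.DP
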